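import Mathlib

namespace Pool.Agent.N405

/-- If every permutation contributing to the determinant preserves the blocks, the determinant
is the product of the determinants of the blocks. -/
theorem det_blocks {V O : Type*} [Fintype V] [DecidableEq V] [Fintype O] [DecidableEq O]
    (A : Matrix V V ℝ) (f : V → O)
    (h : ∀ σ : Equiv.Perm V, (∀ v, A (σ v) v ≠ 0) → ∀ v, f (σ v) = f v) :
    A.det = ∏ k : O, (A.toSquareBlock f k).det := by
  classical
  let A' : Matrix V V ℝ := fun v w => if f v = f w then A v w else 0
  have hdet : A.det = A'.det := by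
    rw [Matrix.det_apply, Matrix.det_apply]
    refine Finset.sum_congr rfl fun σ _ => ?_
    congr 1
    by_cases hσ : ∀ v, A (σ v) v ≠ 0
    · refine Finset.prod_congr rfl fun v _ => ?_
      simp only [A', if_pos (h σ hσ v)]
    · push Not at hσ
      obtain ⟨v, hv⟩ := hσ
      have e2 : A' (σ v) v = 0 := by
        change (if f (σ v) = f v then A (σ v) v else 0) = 0
        rw [hv, ite_self]
      have e3 : ∏ i, A (σ i) i = 0 :=
        Finset.prod_eq_zero (f := fun i => A (σ i) i) (Finset.mem_univ v) hv
      have e4 : ∏ i, A' (σ i) i = 0 :=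
        Finset.prod_eq_zero (f := fun i => A' (σ i) i) (Finset.mem_univ v) e2
      exact e3.trans e4.symm
  let q := Fintype.equivFin O
  have htri : A'.BlockTriangular (fun v => q (f v)) := by
    intro v w hvw
    simp only [A']
    rw [if_neg]
    intro h
    change q (f w) < q (f v) at hvw
    rw [h] at hvw
    exact lt_irrefl _ hvw
  rw [hdet, htri.det_fintype, ← Equiv.prod_comp q]
  refine Finset.prod_congr rfl fun k _ => ?_
  let e : {a // f a = k} ≃ {a // (fun v => q (f v)) a = q k} :=
    Equiv.subtypeEquivRight (fun v => by rw [q.injective.eq_iff])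
  rw [← Matrix.det_submatrix_equiv_self e]
  congr 1
  ext v w
  change (if f v.1 = f w.1 then A v.1 w.1 else 0) = A v.1 w.1
  rw [v.2, w.2, if_pos rfl]

end Pool.Agent.N405
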