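import Mathlib
import Pool.Agent.N405.DetBlocks

namespace Pool.Agent.N405

open Classical in
/-- Factorization of the adjacency determinant along a family of disjoint sets preserved by
every Sachs permutation. -/
theorem det_parts {V O : Type*} [Fintype V] [Fintype O] (G : SimpleGraph V) (S : O → Set V)
    (B : Set V) (hB : ∀ v, v ∈ B ↔ ∀ i, v ∉ S i) (hS : ∀ i j, i ≠ j → Disjoint (S i) (S j))
    (hσ : ∀ σ : Equiv.Perm V, (∀ v, G.Adj v (σ v)) → ∀ i, ∀ v ∈ S i, σ v ∈ S i) :
    (G.adjMatrix ℝ).det = ((G.induce B).adjMatrix ℝ).det *
      ∏ i, ((G.induce (S i)).adjMatrix ℝ).det := by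
  let f : V → Option O := fun v => if h : ∃ i, v ∈ S i then some h.choose else none
  have hf1 : ∀ v i, f v = some i ↔ v ∈ S i := by
    intro v i
    constructor
    · intro h
      by_cases hex : ∃ i, v ∈ S i
      · simp only [f, dif_pos hex, Option.some.injEq] at h
        rw [← h]; exact hex.choose_spec
      · simp only [f, dif_neg hex] at h
        exact absurd h (by simp)
    · intro h
      have hex : ∃ i, v ∈ S i := ⟨i, h⟩
      simp only [f, dif_pos hex, Option.some.injEq]
      by_contra hne
      exact Set.disjoint_left.1 (hS _ _ hne) hex.choose_spec h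
  have hf2 : ∀ v, f v = none ↔ v ∈ B := by
    intro v
    rw [hB]
    constructor
    · intro h i hv
      rw [(hf1 v i).2 hv] at h
      exact absurd h (by simp)
    · intro h
      rcases hfv : f v with _ | i
      · rfl
      · exact absurd ((hf1 v i).1 hfv) (h i)
  -- a permutation of nonzero weight preserves the blocks
  have hperm : ∀ σ : Equiv.Perm V, (∀ v, G.Adj v (σ v)) → ∀ v, f (σ v) = f v := by
    intro σ hσ'
    have h1 : ∀ v i, f v = some i → f (σ v) = some i := by
      intro v i h
      rw [hf1] at h ⊢
      exact hσ σ hσ' i v h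
    intro v
    rcases hfv : f v with _ | E
    · rcases hfs : f (σ v) with _ | E
      · rfl
      · exfalso
        have hit : ∀ j : ℕ, f (σ^[j + 1] v) = some E := by
          intro j
          induction j with
          | zero => exact hfs
          | succ j ih =>
            rw [Function.iterate_succ_apply']
            exact h1 _ _ ih
        have hp : 0 < Function.minimalPeriod σ v :=
          Function.minimalPeriod_pos_of_mem_periodicPts (σ.injective.mem_periodicPts v)
        have := hit (Function.minimalPeriod σ v - 1)
        rw [Nat.sub_add_cancel hp, Function.iterate_minimalPeriod, hfv] at this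
        exact absurd this (by simp)
    · exact h1 v E hfv
  rw [Pool.Agent.N405.det_blocks (G.adjMatrix ℝ) f ?_, Fintype.prod_option]
  · have hblock : ∀ (k : Option O) (S : Set V), (∀ v, f v = k ↔ v ∈ S) →
        ((G.adjMatrix ℝ).toSquareBlock f k).det = ((G.induce S).adjMatrix ℝ).det := by
      intro k S hkS
      let e : {a // f a = k} ≃ S := Equiv.subtypeEquivRight hkS
      rw [← Matrix.det_submatrix_equiv_self e]
      congr 1
    have e1 := hblock none _ hf2
    have e2 : ∏ i : O, ((G.adjMatrix ℝ).toSquareBlock f (some i)).det =
        ∏ i : O, ((G.induce (S i)).adjMatrix ℝ).det :=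
      Finset.prod_congr rfl fun i _ => hblock (some i) (S i) (fun v => hf1 v i)
    rw [e1, e2]
  · intro σ hσ
    apply hperm σ
    intro v
    by_contra hv
    apply hσ v
    rw [SimpleGraph.adjMatrix_apply, if_neg (fun h => hv h.symm)]

end Pool.Agent.N405
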