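import Mathlib

/-!
# Reach sets of odd cycles and `R`-disjoint graphs (definitions)
-/

namespace Pool.Agent.N405.Flower

open SimpleGraph

variable {V : Type*}

/-- `E` is the edge set of an odd cycle of `G` (with `2 t + 1 ≥ 3` vertices `c 0, c 1, …`). -/
def IsOddCycle (G : SimpleGraph V) (E : Set (Sym2 V)) : Prop :=
  ∃ t : ℕ, 1 ≤ t ∧ ∃ c : ZMod (2 * t + 1) → V, Function.Injective c ∧
    (∀ i, G.Adj (c i) (c (i + 1))) ∧ E = Set.range (fun i => s(c i, c (i + 1)))

/-- The vertices of a set of edges. -/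
def verts (E : Set (Sym2 V)) : Set V := {v | ∃ e ∈ E, v ∈ e}

/-- `M` is a matching of `G`. -/
def IsMatching (G : SimpleGraph V) (M : Set (Sym2 V)) : Prop :=
  M ⊆ G.edgeSet ∧ ∀ e ∈ M, ∀ f ∈ M, ∀ v, v ∈ e → v ∈ f → e = f

/-- `M` is a maximum matching of `G`. -/
def IsMaximumMatching (G : SimpleGraph V) (M : Set (Sym2 V)) : Prop :=
  IsMatching G M ∧ ∀ N, IsMatching G N → N.ncard ≤ M.ncard

/-- The cycle with edge set `E` is an `M`-blossom: it has `2 t + 1` edges, and exactly `t` of
them lie in `M`. -/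
def IsBlossom (G : SimpleGraph V) (M E : Set (Sym2 V)) : Prop :=
  IsOddCycle G E ∧ ∃ t : ℕ, E.ncard = 2 * t + 1 ∧ (E ∩ M).ncard = t

/-- `b` is the base of the blossom `E`: the vertex of `E` not covered by the edges of `E`
that lie in `M`. -/
def IsBase (M E : Set (Sym2 V)) (b : V) : Prop :=
  b ∈ verts E ∧ ∀ e ∈ E ∩ M, b ∉ e

/-- `p 0, p 1, …, p (2 s)` is an `M`-stem of the blossom `E` with base `b`: a path of even
length `2 s` of `G`, alternating with respect to `M`, from `b` to a vertex not covered by `M`,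
meeting the blossom only at the base. -/
structure IsStem (G : SimpleGraph V) (M E : Set (Sym2 V)) (b : V) (s : ℕ) (p : ℕ → V) :
    Prop where
  start : p 0 = b
  adj : ∀ i < 2 * s, G.Adj (p i) (p (i + 1))
  inj : ∀ i ≤ 2 * s, ∀ j ≤ 2 * s, p i = p j → i = j
  alt : ∀ i, i + 2 ≤ 2 * s → (s(p i, p (i + 1)) ∈ M ↔ s(p (i + 1), p (i + 2)) ∉ M)
  uncovered : ∀ e ∈ M, p (2 * s) ∉ e
  meets : ∀ i ≤ 2 * s, p i ∈ verts E → p i = b

/-- `F` is the vertex set of an `M`-flower whose blossom is the odd cycle `E`. -/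
def IsFlower (G : SimpleGraph V) (M E : Set (Sym2 V)) (F : Set V) : Prop :=
  IsBlossom G M E ∧ ∃ (b : V) (s : ℕ) (p : ℕ → V), IsBase M E b ∧ IsStem G M E b s p ∧
    F = verts E ∪ {v | ∃ i ≤ 2 * s, v = p i}

/-- The reach set `R(C)` of the odd cycle `C` with edge set `E`: the union of the vertex sets
of all `M`-flowers with blossom `C`, over all maximum matchings `M`. -/
def reach (G : SimpleGraph V) (E : Set (Sym2 V)) : Set V :=
  {v | ∃ M F, IsMaximumMatching G M ∧ IsFlower G M E F ∧ v ∈ F}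

/-- The set `B(G)` of the vertices that lie in no reach set of an odd cycle of `G`. -/
def rest (G : SimpleGraph V) : Set V := {v | ∀ E, IsOddCycle G E → v ∉ reach G E}

/-- `G` is `R`-disjoint: it has an odd cycle, all reach sets are nonempty, and the reach sets
of distinct odd cycles are disjoint. -/
def RDisjoint (G : SimpleGraph V) : Prop :=
  (∃ E, IsOddCycle G E) ∧ (∀ E, IsOddCycle G E → (reach G E).Nonempty) ∧
    ∀ E E', IsOddCycle G E → IsOddCycle G E' → E ≠ E' → Disjoint (reach G E) (reach G E')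

end Pool.Agent.N405.Flower
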