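import Mathlib
import Pool.Agent.N405.FlowerDef

namespace Pool.Agent.N405.Flower

open SimpleGraph Finset

variable {V : Type*}

/-- matchings as involutions -/
structure Inv (G : SimpleGraph V) (m : V → V) : Prop where
  inv : ∀ v, m (m v) = v
  adj : ∀ v, m v ≠ v → G.Adj v (m v)

/-- number of fixed points -/
def fxc [Fintype V] [DecidableEq V] (m : V → V) : ℕ := (univ.filter (fun v => m v = v)).card

structure Mn [Fintype V] [DecidableEq V] (G : SimpleGraph V) (m : V → V) : Prop where
  toInv : Inv G m
  min : ∀ m', Inv G m' → fxc m ≤ fxc m'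

/-- edge set of the matching -/
def eset (m : V → V) : Set (Sym2 V) := {e | ∃ v, m v ≠ v ∧ e = s(v, m v)}

lemma mem_eset {G : SimpleGraph V} {m : V → V} (h : Inv G m) {v w : V} :
    s(v, w) ∈ eset m ↔ m v ≠ v ∧ m v = w := by
  constructor
  · rintro ⟨u, hu, he⟩
    rcases Sym2.eq_iff.1 he with ⟨rfl, rfl⟩ | ⟨rfl, rfl⟩
    · exact ⟨hu, rfl⟩
    · rw [h.inv]; exact ⟨fun h' => hu h'.symm, rfl⟩
  · rintro ⟨h1, rfl⟩
    exact ⟨v, h1, rfl⟩

lemma mem_of_eset {G : SimpleGraph V} {m : V → V} (h : Inv G m) {v : V} {e : Sym2 V}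
    (he : e ∈ eset m) (hv : v ∈ e) : m v ≠ v ∧ e = s(v, m v) := by
  obtain ⟨u, hu, rfl⟩ := he
  rcases Sym2.mem_iff.1 hv with rfl | rfl
  · exact ⟨hu, rfl⟩
  · rw [h.inv]; exact ⟨fun h' => hu h'.symm, Sym2.eq_swap⟩

lemma eset_matching {G : SimpleGraph V} {m : V → V} (h : Inv G m) : IsMatching G (eset m) := by
  constructor
  · rintro e ⟨v, hv, rfl⟩
    exact h.adj v hv
  · intro e he f hf v hve hvf
    rw [(mem_of_eset h he hve).2, (mem_of_eset h hf hvf).2]

lemma exists_inv {G : SimpleGraph V} {M : Set (Sym2 V)} (hM : IsMatching G M) :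
    ∃ m, Inv G m ∧ eset m = M := by
  classical
  have key : ∀ v w w', s(v, w) ∈ M → s(v, w') ∈ M → w = w' := by
    intro v w w' h h'
    have := hM.2 _ h _ h' v (by simp) (by simp)
    rcases Sym2.eq_iff.1 this with ⟨_, h2⟩ | ⟨h1, h2⟩
    · exact h2
    · rw [h2, h1]
  let m : V → V := fun v => if h : ∃ w, s(v, w) ∈ M then h.choose else v
  have m1 : ∀ v w, s(v, w) ∈ M → m v = w := by
    intro v w h
    have hex : ∃ w, s(v, w) ∈ M := ⟨w, h⟩
    simp only [m, dif_pos hex]
    exact key v _ _ hex.choose_spec h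
  have m2 : ∀ v, (¬ ∃ w, s(v, w) ∈ M) → m v = v := by
    intro v h
    simp only [m, dif_neg h]
  have hne : ∀ v w, s(v, w) ∈ M → w ≠ v := by
    intro v w h h'
    have : G.Adj v w := hM.1 h
    exact this.ne h'.symm
  have m3 : ∀ v, m (m v) = v := by
    intro v
    by_cases h : ∃ w, s(v, w) ∈ M
    · obtain ⟨w, hw⟩ := h
      rw [m1 v w hw]
      exact m1 w v (by rw [Sym2.eq_swap]; exact hw)
    · rw [m2 v h, m2 v h]
  have m4 : ∀ v, m v ≠ v → s(v, m v) ∈ M := by
    intro v hv
    by_cases h : ∃ w, s(v, w) ∈ M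
    · obtain ⟨w, hw⟩ := h
      rw [m1 v w hw]; exact hw
    · exact absurd (m2 v h) hv
  refine ⟨m, ⟨m3, fun v hv => hM.1 (m4 v hv)⟩, ?_⟩
  ext e
  induction e with
  | h v w =>
    constructor
    · rintro ⟨u, hu, he⟩
      rw [he]; exact m4 u hu
    · intro h
      exact ⟨v, by rw [m1 v w h]; exact hne v w h, by rw [m1 v w h]⟩

/-- double counting on a closed set -/
lemma two_mul_image {m : V → V} [DecidableEq V] (A : Finset V)
    (hinv : ∀ v ∈ A, m (m v) = v) (hcl : ∀ v ∈ A, m v ∈ A) (hne : ∀ v ∈ A, m v ≠ v) :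
    2 * (A.image (fun v => s(v, m v))).card = A.card := by
  classical
  have := Finset.card_eq_sum_card_image (fun v => s(v, m v)) A
  rw [this, mul_comm, Finset.sum_const_nat (m := 2)]
  intro e he
  obtain ⟨v, hv, rfl⟩ := Finset.mem_image.1 he
  have : A.filter (fun u => s(u, m u) = s(v, m v)) = {v, m v} := by
    ext u
    simp only [mem_filter, mem_insert, mem_singleton]
    constructor
    · rintro ⟨_, h⟩
      rcases Sym2.eq_iff.1 h with ⟨h, _⟩ | ⟨h, _⟩
      · exact Or.inl h
      · exact Or.inr h
    · rintro (rfl | rfl)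
      · exact ⟨hv, rfl⟩
      · exact ⟨hcl v hv, by rw [hinv v hv]; exact Sym2.eq_swap⟩
  rw [this, Finset.card_pair (hne v hv).symm]

section
variable [Fintype V] [DecidableEq V] {G : SimpleGraph V}

lemma eset_card {m : V → V} (h : Inv G m) :
    2 * (eset m).ncard + fxc m = Fintype.card V := by
  classical
  have h1 : eset m = ((univ.filter (fun v => m v ≠ v)).image (fun v => s(v, m v)) :
      Finset (Sym2 V)) := by
    ext e
    simp only [eset, Set.mem_ofPred_eq, coe_image, Set.mem_image, mem_coe, mem_filter, mem_univ,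
      true_and]
    constructor
    · rintro ⟨v, hv, rfl⟩; exact ⟨v, hv, rfl⟩
    · rintro ⟨v, hv, rfl⟩; exact ⟨v, hv, rfl⟩
  rw [h1, Set.ncard_coe_finset, two_mul_image (m := m)]
  · rw [fxc, add_comm]
    have := Finset.card_filter_add_card_filter_not (s := (univ : Finset V)) (fun v => m v = v)
    rw [Finset.card_univ] at this
    exact this
  · intro v _; exact h.inv v
  · intro v hv
    simp only [mem_filter, mem_univ, true_and] at hv ⊢
    rw [h.inv]; exact fun h' => hv h'.symm
  · intro v hv
    simpa using hv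

lemma mn_max {m : V → V} (h : Mn G m) : IsMaximumMatching G (eset m) := by
  refine ⟨eset_matching h.toInv, ?_⟩
  intro N hN
  obtain ⟨n, hn, rfl⟩ := exists_inv hN
  have h1 := eset_card h.toInv
  have h2 := eset_card hn
  have h3 := h.min n hn
  omega

lemma exists_mn {M : Set (Sym2 V)} (hM : IsMaximumMatching G M) :
    ∃ m, Mn G m ∧ eset m = M := by
  obtain ⟨m, hm, rfl⟩ := exists_inv hM.1
  refine ⟨m, ⟨hm, ?_⟩, rfl⟩
  intro m' hm'
  have h1 := eset_card hm
  have h2 := eset_card hm'
  have h3 := hM.2 _ (eset_matching hm')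
  omega

/-- swap on a set closed under both involutions -/
noncomputable def sw (Q : Set V) (m n : V → V) : V → V := by
  classical
  exact fun v => if v ∈ Q then m v else n v

omit [Fintype V] [DecidableEq V] in
lemma sw_mem {Q : Set V} {m n : V → V} {v : V} (h : v ∈ Q) : sw Q m n v = m v := by
  classical
  simp [sw, h]

omit [Fintype V] [DecidableEq V] in
lemma sw_not_mem {Q : Set V} {m n : V → V} {v : V} (h : v ∉ Q) : sw Q m n v = n v := by
  classical
  simp [sw, h]

omit [Fintype V] [DecidableEq V] in
lemma closed_iff {Q : Set V} {m : V → V} (hm : ∀ v, m (m v) = v) (h : ∀ v ∈ Q, m v ∈ Q) (v : V) :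
    m v ∈ Q ↔ v ∈ Q := ⟨fun h' => by rw [← hm v]; exact h _ h', h v⟩

omit [Fintype V] [DecidableEq V] in
lemma sw_inv {Q : Set V} {m n : V → V} (hm : Inv G m) (hn : Inv G n)
    (h1 : ∀ v ∈ Q, m v ∈ Q) (h2 : ∀ v ∈ Q, n v ∈ Q) : Inv G (sw Q m n) := by
  constructor
  · intro v
    by_cases h : v ∈ Q
    · rw [sw_mem h, sw_mem (h1 v h), hm.inv]
    · rw [sw_not_mem h, sw_not_mem, hn.inv]
      rwa [closed_iff hn.inv h2]
  · intro v
    by_cases h : v ∈ Q
    · rw [sw_mem h]; exact hm.adj v
    · rw [sw_not_mem h]; exact hn.adj v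

lemma sw_fxc (Q : Set V) (m n : V → V) :
    fxc (sw Q m n) + fxc (sw Q n m) = fxc m + fxc n := by
  classical
  simp only [fxc, card_filter]
  rw [← sum_add_distrib, ← sum_add_distrib]
  refine sum_congr rfl fun v _ => ?_
  by_cases h : v ∈ Q
  · rw [sw_mem h, sw_mem h]
  · rw [sw_not_mem h, sw_not_mem h, add_comm]

lemma sw_mn {Q : Set V} {m n : V → V} (hm : Mn G m) (hn : Mn G n)
    (h1 : ∀ v ∈ Q, m v ∈ Q) (h2 : ∀ v ∈ Q, n v ∈ Q) : Mn G (sw Q m n) := by
  have i1 := sw_inv hm.toInv hn.toInv h1 h2
  have i2 := sw_inv hn.toInv hm.toInv h2 h1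
  refine ⟨i1, fun m' hm' => ?_⟩
  have := sw_fxc Q m n
  have a1 := hm.min _ hm'
  have a2 := hn.min _ i2
  have a3 := hm.min _ i1
  have a4 := hn.min _ i1
  have a5 := hm.min _ i2
  have a6 := hm.min _ hn.toInv
  have a7 := hn.min _ hm.toInv
  omega

omit [Fintype V] in
/-- local step -/
lemma local_inv {n : V → V} (hn : Inv G n) {x a : V} (hx : n x = x) (ha : n a ≠ a)
    (hxa : G.Adj x a) :
    Inv G (fun v => if v = x then a else if v = a then x else if v = n a then n a else n v) := by
  have hne := hxa.ne
  have hnax : n a ≠ x := by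
    intro h; apply hne; rw [← hn.inv a, h, hx]
  constructor
  · intro v
    by_cases h1 : v = x
    · subst h1; simp [hne.symm]
    · by_cases h2 : v = a
      · subst h2; simp [h1]
      · by_cases h3 : v = n a
        · subst h3; simp [h1, h2]
        · simp only [h1, h2, h3, if_false]
          have e1 : n v ≠ x := by
            intro h; apply h1; rw [← hn.inv v, h, hx]
          have e2 : n v ≠ a := by
            intro h; apply h3; rw [← h, hn.inv]
          have e3 : n v ≠ n a := by
            intro h; apply h2; rw [← hn.inv v, h, hn.inv]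
          simp [e1, e2, e3, hn.inv]
  · intro v
    by_cases h1 : v = x
    · subst h1; simp [hxa]
    · by_cases h2 : v = a
      · subst h2; simp [h1, hxa.symm]
      · by_cases h3 : v = n a
        · subst h3; simp [h1, h2]
        · simp only [h1, h2, h3, if_false]
          exact hn.adj v

lemma local_fxc {n : V → V} (hn : Inv G n) {x a : V} (hx : n x = x) (ha : n a ≠ a)
    (hxa : G.Adj x a) :
    fxc (fun v => if v = x then a else if v = a then x else if v = n a then n a else n v)
      = fxc n := by
  have hne := hxa.ne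
  have hnax : n a ≠ x := by
    intro h; apply hne; rw [← hn.inv a, h, hx]
  have h1 : (univ.filter (fun v => (if v = x then a else if v = a then x else
      if v = n a then n a else n v) = v)) =
      insert (n a) ((univ.filter (fun v => n v = v)).erase x) := by
    ext v
    simp only [mem_filter, mem_univ, true_and, mem_insert, mem_erase]
    by_cases h1 : v = x
    · subst h1; simp [hne.symm, hnax.symm]
    · by_cases h2 : v = a
      · subst h2; simp [h1, ha, ha.symm, Ne.symm h1]
      · by_cases h3 : v = n a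
        · subst h3; simp [h1, h2]
        · simp [h1, h2, h3]
  rw [fxc, h1, card_insert_of_notMem, card_erase_of_mem, fxc]
  · have : 0 < (univ.filter (fun v => n v = v)).card := card_pos.2 ⟨x, by simpa using hx⟩
    omega
  · simpa using hx
  · simp only [mem_erase, mem_filter, mem_univ, true_and, hn.inv]
    exact fun h => ha h.2.symm

lemma no_aug {n : V → V} (hn : Mn G n) {x a : V} (hx : n x = x) (hxa : G.Adj x a) :
    n a ≠ a := by
  intro ha
  have hne := hxa.ne
  let n' : V → V := fun v => if v = x then a else if v = a then x else n v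
  have hn' : Inv G n' := by
    constructor
    · intro v
      by_cases h1 : v = x
      · subst h1; simp [n', hne.symm]
      · by_cases h2 : v = a
        · subst h2; simp [n', h1]
        · simp only [n', h1, h2, if_false]
          have e1 : n v ≠ x := by
            intro h; apply h1; rw [← hn.toInv.inv v, h, hx]
          have e2 : n v ≠ a := by
            intro h; apply h2; rw [← hn.toInv.inv v, h, ha]
          simp [e1, e2, hn.toInv.inv]
    · intro v
      by_cases h1 : v = x
      · subst h1; simp [n', hxa]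
      · by_cases h2 : v = a
        · subst h2; simp [n', h1, hxa.symm]
        · simp only [n', h1, h2, if_false]
          exact hn.toInv.adj v
  have hlt : fxc n' < fxc n := by
    apply card_lt_card
    rw [Finset.ssubset_iff_of_subset]
    · refine ⟨x, by simpa using hx, ?_⟩
      simp [n', hne.symm]
    · intro v
      simp only [mem_filter, mem_univ, true_and, n']
      by_cases h1 : v = x
      · subst h1; intro _; exact hx
      · by_cases h2 : v = a
        · subst h2; intro _; exact ha
        · simp [h1, h2]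
  exact absurd (hn.min n' hn') (by omega)

/-- switching along a path -/
lemma switch {n : V → V} (hn : Inv G n) (p : ℕ → V) (s : ℕ)
    (h0 : n (p 0) = p 0) (hadj : ∀ j < s, G.Adj (p (2 * j)) (p (2 * j + 1)))
    (hmt : ∀ j < s, n (p (2 * j + 1)) = p (2 * j + 2))
    (hinj : ∀ i ≤ 2 * s, ∀ j ≤ 2 * s, p i = p j → i = j) :
    ∃ m, Inv G m ∧ fxc m = fxc n ∧ (∀ j < s, m (p (2 * j)) = p (2 * j + 1)) ∧
      m (p (2 * s)) = p (2 * s) ∧ ∀ v, (∀ i ≤ 2 * s, v ≠ p i) → m v = n v := by
  induction s with
  | zero =>
    exact ⟨n, hn, rfl, by simp, by simpa using h0, fun _ _ => rfl⟩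
  | succ s ih =>
    obtain ⟨m, hm, hf, hm1, hm2, hm3⟩ := ih (fun j hj => hadj j (by omega))
      (fun j hj => hmt j (by omega)) (fun i hi j hj => hinj i (by omega) j (by omega))
    have ha : m (p (2 * s + 1)) = p (2 * s + 2) := by
      rw [hm3, hmt s (by omega)]
      intro i hi h
      have := hinj _ (by omega) _ (by omega) h
      omega
    have hane : m (p (2 * s + 1)) ≠ p (2 * s + 1) := by
      rw [ha]; intro h
      have := hinj _ (by omega) _ (by omega) h
      omega
    have hA := hadj s (by omega)
    refine ⟨_, local_inv hm hm2 hane hA, (local_fxc hm hm2 hane hA).trans hf, ?_, ?_, ?_⟩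
    · intro j hj
      by_cases hjs : j = s
      · subst hjs; simp
      · have e1 : p (2 * j) ≠ p (2 * s) := fun h => by
          have := hinj _ (by omega) _ (by omega) h; omega
        have e2 : p (2 * j) ≠ p (2 * s + 1) := fun h => by
          have := hinj _ (by omega) _ (by omega) h; omega
        have e3 : p (2 * j) ≠ p (2 * s + 2) := fun h => by
          have := hinj _ (by omega) _ (by omega) h; omega
        simp only [e1, e2, ha, e3, if_false]
        exact hm1 j (by omega)
    · have e1 : p (2 * (s + 1)) ≠ p (2 * s) := fun h => by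
        have := hinj _ (by omega) _ (by omega) h; omega
      have e2 : p (2 * (s + 1)) ≠ p (2 * s + 1) := fun h => by
        have := hinj _ (by omega) _ (by omega) h; omega
      simp only [e1, e2, ha, if_false]
      rw [if_pos (by ring_nf)]
      ring_nf
    · intro v hv
      have e1 : v ≠ p (2 * s) := hv _ (by omega)
      have e2 : v ≠ p (2 * s + 1) := hv _ (by omega)
      have e3 : v ≠ p (2 * s + 2) := hv _ (by omega)
      simp only [e1, e2, ha, e3, if_false]
      exact hm3 v (fun i hi => hv i (by omega))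

end

end Pool.Agent.N405.Flower
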