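import Mathlib
import Pool.Agent.N405.FlowerInv

namespace Pool.Agent.N405.Flower

open SimpleGraph Finset

variable {V : Type*}

section cyc

variable {t : ℕ} {c : ZMod (2 * t + 1) → V}

lemma cyc_verts : verts (Set.range (fun i => s(c i, c (i + 1)))) = Set.range c := by
  ext v
  constructor
  · rintro ⟨e, ⟨i, rfl⟩, hv⟩
    rcases Sym2.mem_iff.1 hv with rfl | rfl
    · exact ⟨_, rfl⟩
    · exact ⟨_, rfl⟩
  · rintro ⟨i, rfl⟩
    exact ⟨_, ⟨i, rfl⟩, by simp⟩

lemma two_ne (ht : 1 ≤ t) : (1 + 1 : ZMod (2 * t + 1)) ≠ 0 := by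
  intro h
  have h2 : ((2 : ℕ) : ZMod (2 * t + 1)) = 0 := by push_cast; rw [← h]; norm_num
  rw [ZMod.natCast_eq_zero_iff] at h2
  have := Nat.le_of_dvd (by norm_num) h2
  omega

lemma cyc_ncard_E (ht : 1 ≤ t) (hc : Function.Injective c) :
    (Set.range (fun i => s(c i, c (i + 1)))).ncard = 2 * t + 1 := by
  have hinj : Function.Injective (fun i => s(c i, c (i + 1))) := by
    intro i j h
    rcases Sym2.eq_iff.1 h with ⟨h1, _⟩ | ⟨h1, h2⟩
    · exact hc h1
    · exfalso
      have e1 := hc h1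
      have e2 := hc h2
      apply two_ne ht
      have : j + (1 + 1) = j + 0 := by rw [← add_assoc, ← e1, e2, add_zero]
      exact add_left_cancel this
  rw [← Set.image_univ, Set.ncard_image_of_injective _ hinj, Set.ncard_univ, Nat.card_eq_fintype_card,
    ZMod.card]

lemma cyc_ncard_K (hc : Function.Injective c) : (Set.range c).ncard = 2 * t + 1 := by
  rw [← Set.image_univ, Set.ncard_image_of_injective _ hc, Set.ncard_univ, Nat.card_eq_fintype_card,
    ZMod.card]

lemma cyc_rot (ht : 1 ≤ t) (hc : Function.Injective c) (i₀ : ZMod (2 * t + 1)) :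
    ∃ τ : V → V, (∀ v, τ (τ v) = v) ∧ τ (c i₀) = c i₀ ∧
      (∀ i, i ≠ i₀ → s(c i, τ (c i)) ∈ Set.range (fun i => s(c i, c (i + 1)))) ∧
      ∀ v ∉ Set.range c, τ v = v := by
  classical
  have : Fact (1 < 2 * t + 1) := ⟨by omega⟩
  let g : ZMod (2 * t + 1) → ZMod (2 * t + 1) := fun j =>
    if j.val = 0 then j else if j.val % 2 = 1 then j + 1 else j - 1
  have hv1 : ∀ j : ZMod (2 * t + 1), j.val % 2 = 1 → (j + 1).val = j.val + 1 := by
    intro j hj
    have hlt := ZMod.val_lt j
    rw [ZMod.val_add_of_lt, ZMod.val_one]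
    rw [ZMod.val_one]; omega
  have hv2 : ∀ j : ZMod (2 * t + 1), j.val ≠ 0 → (j - 1).val = j.val - 1 := by
    intro j hj
    rw [ZMod.val_sub, ZMod.val_one]
    rw [ZMod.val_one]; omega
  have hg : ∀ j, g (g j) = j := by
    intro j
    by_cases h0 : j.val = 0
    · have e : g j = j := by simp only [g, if_pos h0]
      rw [e, e]
    · by_cases h1 : j.val % 2 = 1
      · have e : g j = j + 1 := by simp only [g, if_neg h0, if_pos h1]
        rw [e]
        have e1 := hv1 j h1
        simp only [g]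
        rw [if_neg (by omega), if_neg (by omega)]
        ring
      · have e : g j = j - 1 := by simp only [g, if_neg h0, if_neg h1]
        rw [e]
        have e1 := hv2 j h0
        simp only [g]
        rw [if_neg (by omega), if_pos (by omega)]
        ring
  let f : ZMod (2 * t + 1) → ZMod (2 * t + 1) := fun i => i₀ + g (i - i₀)
  have hf : ∀ i, f (f i) = i := by
    intro i
    simp only [f, add_sub_cancel_left, hg, add_sub_cancel]
  let τ : V → V := fun v => if h : ∃ i, c i = v then c (f h.choose) else v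
  have hτ1 : ∀ i, τ (c i) = c (f i) := by
    intro i
    have hex : ∃ j, c j = c i := ⟨i, rfl⟩
    simp only [τ, dif_pos hex]
    rw [hc hex.choose_spec]
  have hτ2 : ∀ v ∉ Set.range c, τ v = v := by
    intro v hv
    have : ¬ ∃ i, c i = v := hv
    simp only [τ, dif_neg this]
  refine ⟨τ, ?_, ?_, ?_, hτ2⟩
  · intro v
    by_cases hv : v ∈ Set.range c
    · obtain ⟨i, rfl⟩ := hv
      rw [hτ1, hτ1, hf]
    · rw [hτ2 v hv, hτ2 v hv]
  · rw [hτ1]; simp [f, g]
  · intro i hi
    rw [hτ1]
    have h0 : (i - i₀).val ≠ 0 := by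
      rw [Ne, ZMod.val_eq_zero, sub_eq_zero]; exact hi
    by_cases h1 : (i - i₀).val % 2 = 1
    · have e : f i = i + 1 := by simp only [f, g, if_neg h0, if_pos h1]; ring
      rw [e]; exact ⟨i, rfl⟩
    · have e : f i = i - 1 := by simp only [f, g, if_neg h0, if_neg h1]; ring
      rw [e]; exact ⟨i - 1, by simp only [sub_add_cancel]; exact Sym2.eq_swap⟩

end cyc

/-- `n` is a near perfect matching on the cycle, missing `b` -/
structure CN (E : Set (Sym2 V)) (n : V → V) (b : V) : Prop where
  mem : b ∈ verts E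
  fix : n b = b
  edge : ∀ v ∈ verts E, v ≠ b → s(v, n v) ∈ E

lemma mem_verts_right {E : Set (Sym2 V)} {v w : V} (h : s(v, w) ∈ E) : w ∈ verts E :=
  ⟨_, h, by simp⟩

lemma CN.closed {E : Set (Sym2 V)} {n : V → V} {b : V} (h : CN E n b) :
    ∀ v ∈ verts E, n v ∈ verts E := by
  intro v hv
  by_cases hb : v = b
  · subst hb; rw [h.fix]; exact hv
  · exact mem_verts_right (h.edge v hv hb)

lemma edge_adj {G : SimpleGraph V} {E : Set (Sym2 V)} (hE : IsOddCycle G E) {v w : V}
    (h : s(v, w) ∈ E) : G.Adj v w := by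
  obtain ⟨t, ht, c, hc, hadj, rfl⟩ := hE
  obtain ⟨i, hi⟩ := h
  have : s(v, w) ∈ G.edgeSet := by rw [← hi]; exact hadj i
  exact this

lemma CN.ne {G : SimpleGraph V} {E : Set (Sym2 V)} (hE : IsOddCycle G E) {n : V → V} {b : V}
    (h : CN E n b) {v : V} (hv : v ∈ verts E) (hb : v ≠ b) : n v ≠ v :=
  (edge_adj hE (h.edge v hv hb)).ne'

section
variable [Fintype V] [DecidableEq V] {G : SimpleGraph V} {E : Set (Sym2 V)}

open Classical in
lemma fx_CN (hE : IsOddCycle G E) {f : V → V} {b : V} (h : CN E f b)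
    (hoff : ∀ v ∉ verts E, f v = v) :
    fxc f = (univ.filter (fun v => v ∉ verts E)).card + 1 := by
  have : (univ.filter (fun v => f v = v)) = insert b (univ.filter (fun v => v ∉ verts E)) := by
    ext v
    simp only [mem_filter, mem_univ, true_and, mem_insert]
    constructor
    · intro hv
      by_contra hcon
      push Not at hcon
      exact h.ne hE hcon.2 hcon.1 hv
    · rintro (rfl | hv)
      · exact h.fix
      · exact hoff v hv
  rw [fxc, this, card_insert_of_notMem]
  simpa using h.mem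

lemma rotate (hE : IsOddCycle G E) {n : V → V} (hn : Inv G n) {b w : V} (h : CN E n b)
    (hw : w ∈ verts E) :
    ∃ n', Inv G n' ∧ CN E n' w ∧ (∀ v ∉ verts E, n' v = n v) ∧ fxc n' = fxc n := by
  have hE' := hE
  obtain ⟨t, ht, c, hc, hadj, hEe⟩ := hE
  have hK : verts E = Set.range c := by rw [hEe]; exact cyc_verts
  obtain ⟨i₀, rfl⟩ : w ∈ Set.range c := by rw [← hK]; exact hw
  obtain ⟨τ, h1, h2, h3, h4⟩ := cyc_rot ht hc i₀
  have hτcn : CN E τ (c i₀) := by
    refine ⟨hw, h2, ?_⟩
    intro v hv hne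
    rw [hK] at hv
    obtain ⟨i, rfl⟩ := hv
    rw [hEe]
    exact h3 i (fun h => hne (by rw [h]))
  rw [← hK] at h4
  have hτ : Inv G τ := by
    refine ⟨h1, fun v hv => ?_⟩
    by_cases hvK : v ∈ verts E
    · refine edge_adj hE' (hτcn.edge v hvK ?_)
      rintro rfl; exact hv h2
    · exact absurd (h4 v hvK) hv
  have i1 := sw_inv hτ hn hτcn.closed h.closed
  refine ⟨sw (verts E) τ n, i1, ?_, fun v hv => sw_not_mem hv, ?_⟩
  · refine ⟨hw, by rw [sw_mem hw, h2], ?_⟩
    intro v hv hne
    rw [sw_mem hv]; exact hτcn.edge v hv hne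
  · have e := sw_fxc (verts E) τ n
    rw [fx_CN hE' hτcn h4, fx_CN hE' (f := sw (verts E) n τ) (b := b) ⟨h.mem, ?_, ?_⟩ ?_] at e
    · omega
    · rw [sw_mem h.mem, h.fix]
    · intro v hv hne
      rw [sw_mem hv]; exact h.edge v hv hne
    · intro v hv
      rw [sw_not_mem hv]; exact h4 v hv

/-- alternating path from the cycle -/
structure Alt (G : SimpleGraph V) (n : V → V) (K : Set V) (w x : V) (p : ℕ → V) (s : ℕ) :
    Prop where
  p0 : p 0 = w
  ps : p (2 * s) = x
  adj : ∀ j < s, G.Adj (p (2 * j)) (p (2 * j + 1))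
  mt : ∀ j < s, n (p (2 * j + 1)) = p (2 * j + 2)
  inj : ∀ i ≤ 2 * s, ∀ j ≤ 2 * s, p i = p j → i = j
  out : ∀ i, 1 ≤ i → i ≤ 2 * s → p i ∉ K

omit [Fintype V] [DecidableEq V] in
lemma alt_zero (n : V → V) (K : Set V) (w : V) : Alt G n K w w (fun _ => w) 0 := by
  constructor
  · rfl
  · rfl
  · simp
  · simp
  · intro i hi j hj _; omega
  · intro i hi hi'; omega

omit [Fintype V] [DecidableEq V] in
lemma alt_ext {n : V → V} {K : Set V} {w x : V} {p : ℕ → V} {s : ℕ} (h : Alt G n K w x p s)
    {a : V} (hxa : G.Adj x a) (ha : n a ≠ a) (haK : a ∉ K) (hcK : n a ∉ K)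
    (hap : ∀ i ≤ 2 * s, p i ≠ a) (hcp : ∀ i ≤ 2 * s, p i ≠ n a) :
    ∃ q, Alt G n K w (n a) q (s + 1) ∧ (∀ i ≤ 2 * s, q i = p i) ∧ q (2 * s + 1) = a := by
  classical
  let q : ℕ → V := fun i => if i ≤ 2 * s then p i else if i = 2 * s + 1 then a else n a
  have q1 : ∀ i ≤ 2 * s, q i = p i := fun i hi => by simp only [q, if_pos hi]
  have q2 : q (2 * s + 1) = a := by
    simp only [q]; rw [if_neg (by omega)]; simp
  have q3 : q (2 * s + 2) = n a := by
    simp only [q]; rw [if_neg (by omega), if_neg (by omega)]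
  refine ⟨q, ⟨?_, ?_, ?_, ?_, ?_, ?_⟩, q1, q2⟩
  · rw [q1 0 (by omega)]; exact h.p0
  · rw [show 2 * (s + 1) = 2 * s + 2 by ring, q3]
  · intro j hj
    by_cases hjs : j = s
    · subst hjs; rw [q1 _ le_rfl, q2, h.ps]; exact hxa
    · rw [q1 _ (by omega), q1 _ (by omega)]; exact h.adj j (by omega)
  · intro j hj
    by_cases hjs : j = s
    · subst hjs; rw [q2, q3]
    · rw [q1 _ (by omega), q1 _ (by omega)]; exact h.mt j (by omega)
  · have key : ∀ i ≤ 2 * (s + 1), i ≤ 2 * s ∨ i = 2 * s + 1 ∨ i = 2 * s + 2 := by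
      intro i hi; omega
    intro i hi j hj hij
    rcases key i hi with h1 | h1 | h1 <;> rcases key j hj with h2 | h2 | h2
    · rw [q1 i h1, q1 j h2] at hij; exact h.inj i h1 j h2 hij
    · rw [q1 i h1, h2, q2] at hij; exact absurd hij (hap i h1)
    · rw [q1 i h1, h2, q3] at hij; exact absurd hij (hcp i h1)
    · rw [q1 j h2, h1, q2] at hij; exact absurd hij.symm (hap j h2)
    · omega
    · rw [h1, h2, q2, q3] at hij; exact absurd hij.symm ha
    · rw [q1 j h2, h1, q3] at hij; exact absurd hij.symm (hcp j h2)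
    · rw [h1, h2, q2, q3] at hij; exact absurd hij ha
    · omega
  · intro i hi hi'
    by_cases h1 : i ≤ 2 * s
    · rw [q1 i h1]; exact h.out i hi h1
    · by_cases h2 : i = 2 * s + 1
      · rw [h2, q2]; exact haK
      · rw [show i = 2 * s + 2 by omega, q3]; exact hcK

lemma switch_alt {n : V → V} (hE : IsOddCycle G E) (hn : Mn G n) {b w x : V} {p : ℕ → V} {s : ℕ}
    (hcn : CN E n b) (hw : w ∈ verts E) (ha : Alt G n (verts E) w x p s) :
    ∃ n' m, Mn G n' ∧ CN E n' w ∧ (∀ v ∉ verts E, n' v = n v) ∧ Mn G m ∧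
      (∀ j < s, m (p (2 * j)) = p (2 * j + 1)) ∧ m x = x ∧
      ∀ v, (∀ i ≤ 2 * s, v ≠ p i) → m v = n' v := by
  obtain ⟨n', h1, h2, h3, h4⟩ := rotate hE hn.toInv hcn hw
  have h5 : Mn G n' := ⟨h1, fun m' hm' => by rw [h4]; exact hn.min m' hm'⟩
  obtain ⟨m, m1, m2, m3, m4, m5⟩ := switch h1 p s (by rw [ha.p0]; exact h2.fix) ha.adj
    (fun j hj => by rw [h3 _ (ha.out _ (by omega) (by omega))]; exact ha.mt j hj) ha.inj
  refine ⟨n', m, h5, h2, h3, ⟨m1, fun m' hm' => by rw [m2, h4]; exact hn.min m' hm'⟩, m3, ?_, m5⟩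
  rw [ha.ps] at m4; exact m4

lemma mem_R {n : V → V} (hE : IsOddCycle G E) (hn : Mn G n) {b w x : V} {p : ℕ → V} {s : ℕ}
    (hcn : CN E n b) (hw : w ∈ verts E) (ha : Alt G n (verts E) w x p s) :
    verts E ⊆ reach G E ∧ ∀ i ≤ 2 * s, p i ∈ reach G E := by
  obtain ⟨n', m, hn', hcn', hoff, hm, m1, m2, m3⟩ := switch_alt hE hn hcn hw ha
  have hmax := mn_max hm
  have hmo : ∀ v ∈ verts E, v ≠ w → m v = n' v := by
    intro v hv hne
    apply m3
    intro i hi h
    rcases Nat.eq_zero_or_pos i with rfl | hi0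
    · exact hne (by rw [h, ha.p0])
    · exact ha.out i hi0 hi (h ▸ hv)
  have hmw : s(w, m w) ∉ E ∨ m w = w := by
    rcases Nat.eq_zero_or_pos s with rfl | hs
    · right
      have : w = x := by rw [← ha.p0, ← ha.ps]
      rw [this]; exact m2
    · left
      have := m1 0 hs
      simp only [mul_zero, zero_add] at this
      rw [ha.p0] at this
      rw [this]
      intro h
      exact ha.out 1 le_rfl (by omega) (mem_verts_right h)
  have hE' := hE
  have hbl : IsBlossom G (eset m) E := by
    refine ⟨hE, ?_⟩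
    obtain ⟨t, ht, c, hc, hadj, hEe⟩ := hE
    have hK : verts E = Set.range c := by rw [hEe]; exact cyc_verts
    have hKc : (verts E).ncard = 2 * t + 1 := by rw [hK]; exact cyc_ncard_K hc
    refine ⟨t, by rw [hEe]; exact cyc_ncard_E ht hc, ?_⟩
    have hfin : (verts E \ {w}).Finite := Set.toFinite _
    have himg : E ∩ eset m = ((hfin.toFinset.image (fun v => s(v, m v)) : Finset (Sym2 V)) :
        Set (Sym2 V)) := by
      ext e
      simp only [coe_image, Set.Finite.coe_toFinset, Set.mem_image, Set.mem_inter_iff]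
      constructor
      · rintro ⟨he, v, hv, rfl⟩
        refine ⟨v, ⟨⟨_, he, by simp⟩, ?_⟩, rfl⟩
        rintro rfl
        rcases hmw with h | h
        · exact h he
        · exact hv h
      · rintro ⟨v, ⟨hv, hne⟩, rfl⟩
        have e1 := hmo v hv hne
        rw [e1]
        refine ⟨hcn'.edge v hv hne, ?_⟩
        rw [← e1]
        exact ⟨v, by rw [e1]; exact hcn'.ne hE' hv hne, rfl⟩
    have hcard : hfin.toFinset.card = 2 * t := by
      rw [← Set.ncard_eq_toFinset_card _ hfin, Set.ncard_sdiff_singleton_of_mem hw, hKc]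
      omega
    have := two_mul_image (m := m) hfin.toFinset (fun v _ => hm.toInv.inv v) ?_ ?_
    · rw [himg, Set.ncard_coe_finset]
      omega
    · intro v hv
      rw [Set.Finite.mem_toFinset] at hv ⊢
      have e1 := hmo v hv.1 hv.2
      refine ⟨by rw [e1]; exact hcn'.closed v hv.1, ?_⟩
      intro h
      have h' : m v = w := h
      rw [e1] at h'
      have : v = w := by rw [← hn'.toInv.inv v, h', hcn'.fix]
      exact hv.2 this
    · intro v hv
      rw [Set.Finite.mem_toFinset] at hv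
      rw [hmo v hv.1 hv.2]
      exact hcn'.ne hE' hv.1 hv.2
  have hbase : IsBase (eset m) E w := by
    refine ⟨hw, ?_⟩
    rintro e ⟨he, hem⟩ hwe
    obtain ⟨h1, rfl⟩ := mem_of_eset hm.toInv hem hwe
    rcases hmw with h | h
    · exact h he
    · exact h1 h
  have hstem : IsStem G (eset m) E w s p := by
    have hodd : ∀ j < s, m (p (2 * j + 1)) = p (2 * j) := by
      intro j hj
      rw [← m1 j hj, hm.toInv.inv]
    refine ⟨ha.p0, ?_, ha.inj, ?_, ?_, ?_⟩
    · intro i hi
      rcases Nat.even_or_odd' i with ⟨j, rfl | rfl⟩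
      · exact ha.adj j (by omega)
      · have e1 := ha.mt j (by omega)
        have e2 : n (p (2 * j + 1)) ≠ p (2 * j + 1) := by
          rw [e1]; intro h
          have := ha.inj _ (by omega) _ (by omega) h
          omega
        have := hn.toInv.adj _ e2
        rw [e1] at this
        exact this
    · intro i hi
      rcases Nat.even_or_odd' i with ⟨j, rfl | rfl⟩
      · rw [mem_eset hm.toInv, mem_eset hm.toInv, m1 j (by omega), hodd j (by omega)]
        constructor
        · rintro _ ⟨_, h⟩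
          have := ha.inj _ (by omega) _ (by omega) h
          omega
        · intro _
          refine ⟨fun h => ?_, rfl⟩
          have := ha.inj _ (by omega) _ (by omega) h
          omega
      · have e1 := m1 (j + 1) (by omega)
        rw [show 2 * (j + 1) = 2 * j + 1 + 1 by ring] at e1
        rw [mem_eset hm.toInv, mem_eset hm.toInv, hodd j (by omega), e1]
        constructor
        · rintro ⟨_, h⟩
          have := ha.inj _ (by omega) _ (by omega) h
          omega
        · intro h
          exfalso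
          apply h
          refine ⟨fun h => ?_, rfl⟩
          have := ha.inj _ (by omega) _ (by omega) h
          omega
    · intro e he hx
      rw [ha.ps] at hx
      exact (mem_of_eset hm.toInv he hx).1 m2
    · intro i hi hK
      rcases Nat.eq_zero_or_pos i with rfl | hi0
      · exact ha.p0
      · exact absurd hK (ha.out i hi0 hi)
  have hfl : IsFlower G (eset m) E (verts E ∪ {v | ∃ i ≤ 2 * s, v = p i}) :=
    ⟨hbl, w, s, p, hbase, hstem, rfl⟩
  constructor
  · intro v hv
    exact ⟨_, _, hmax, hfl, Or.inl hv⟩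
  · intro i hi
    exact ⟨_, _, hmax, hfl, Or.inr ⟨i, hi, rfl⟩⟩

/-- every vertex of the reach set comes from an alternating path -/
lemma of_mem_R {x : V} (hx : x ∈ reach G E) :
    ∃ n b p s x', Mn G n ∧ CN E n b ∧ Alt G n (verts E) b x' p s ∧
      (x ∈ verts E ∨ ∃ i ≤ 2 * s, x = p i) := by
  obtain ⟨M, F, hM, ⟨⟨hE, t, hEt, hMt⟩, b, s, p, hbase, hstem, hF⟩, hxF⟩ := hx
  obtain ⟨m, hm, rfl⟩ := exists_mn hM
  have hKc : (verts E).ncard = 2 * t + 1 := by
    obtain ⟨t', ht, c, hc, hadj, hEe⟩ := hE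
    have hK : verts E = Set.range c := by rw [hEe]; exact cyc_verts
    rw [hK, cyc_ncard_K hc, ← hEt, hEe, cyc_ncard_E ht hc]
  -- all vertices of the cycle other than `b` are matched inside
  have hcn0 : ∀ v ∈ verts E, v ≠ b → s(v, m v) ∈ E := by
    let S : Set V := {v | m v ≠ v ∧ s(v, m v) ∈ E}
    have hSfin : S.Finite := Set.toFinite _
    have himg : E ∩ eset m = ((hSfin.toFinset.image (fun v => s(v, m v)) : Finset (Sym2 V)) :
        Set (Sym2 V)) := by
      ext e
      simp only [coe_image, Set.Finite.coe_toFinset, Set.mem_image, Set.mem_inter_iff]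
      constructor
      · rintro ⟨he, v, hv, rfl⟩
        exact ⟨v, ⟨hv, he⟩, rfl⟩
      · rintro ⟨v, ⟨hv, he⟩, rfl⟩
        exact ⟨he, v, hv, rfl⟩
    have hcard := two_mul_image (m := m) hSfin.toFinset (fun v _ => hm.toInv.inv v) (by
      intro v hv
      rw [Set.Finite.mem_toFinset] at hv ⊢
      refine ⟨fun h => hv.1 ?_, ?_⟩
      · rw [hm.toInv.inv] at h; exact h.symm
      · rw [hm.toInv.inv, Sym2.eq_swap]; exact hv.2) (by
      intro v hv
      rw [Set.Finite.mem_toFinset] at hv
      exact hv.1)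
    have h1 : S.ncard = 2 * t := by
      rw [Set.ncard_eq_toFinset_card _ hSfin, ← hcard, ← hMt, himg, Set.ncard_coe_finset]
    have h2 : S ⊆ verts E \ {b} := by
      intro v hv
      refine ⟨⟨_, hv.2, by simp⟩, ?_⟩
      rintro rfl
      exact hbase.2 _ ⟨hv.2, ⟨v, hv.1, rfl⟩⟩ (by simp)
    have h3 : S = verts E \ {b} := by
      apply Set.eq_of_subset_of_ncard_le h2 _ (Set.toFinite _)
      rw [Set.ncard_sdiff_singleton_of_mem hbase.1, hKc, h1]
      omega
    intro v hv hne
    have : v ∈ S := by rw [h3]; exact ⟨hv, hne⟩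
    exact this.2
  have hfix : m (p (2 * s)) = p (2 * s) := by
    by_contra h
    exact hstem.uncovered _ ⟨_, h, rfl⟩ (by simp)
  have halt : ∀ k < 2 * s, (s(p (2 * s - 1 - k), p (2 * s - k)) ∈ eset m ↔ k % 2 = 1) := by
    intro k
    induction k with
    | zero =>
      intro _
      constructor
      · intro h
        exact absurd (by simp) (hstem.uncovered _ h)
      · intro h; omega
    | succ k ih =>
      intro hk
      have i1 := ih (by omega)
      have i2 := hstem.alt (2 * s - 2 - k) (by omega)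
      rw [show 2 * s - 2 - k + 1 = 2 * s - 1 - k by omega,
        show 2 * s - 2 - k + 2 = 2 * s - k by omega] at i2
      rw [show 2 * s - 1 - (k + 1) = 2 * s - 2 - k by omega,
        show 2 * s - (k + 1) = 2 * s - 1 - k by omega, i2, i1]
      omega
  have hmatch : ∀ j < s, m (p (2 * j)) = p (2 * j + 1) := by
    intro j hj
    have := (halt (2 * s - 1 - 2 * j) (by omega)).2 (by omega)
    rw [show 2 * s - 1 - (2 * s - 1 - 2 * j) = 2 * j by omega,
      show 2 * s - (2 * s - 1 - 2 * j) = 2 * j + 1 by omega, mem_eset hm.toInv] at this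
    exact this.2
  obtain ⟨n, n1, n2, n3, n4, n5⟩ := switch (G := G) hm.toInv (fun i => p (2 * s - i)) s
    (by simpa using hfix)
    (by
      intro j hj
      have := hstem.adj (2 * s - (2 * j + 1)) (by omega)
      rw [show 2 * s - (2 * j + 1) + 1 = 2 * s - 2 * j by omega] at this
      exact this.symm)
    (by
      intro j hj
      have := hmatch (s - 1 - j) (by omega)
      rw [show 2 * (s - 1 - j) = 2 * s - (2 * j + 2) by omega,
        show 2 * s - (2 * j + 2) + 1 = 2 * s - (2 * j + 1) by omega] at this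
      change m (p (2 * s - (2 * j + 1))) = p (2 * s - (2 * j + 2))
      rw [← this, hm.toInv.inv])
    (by
      intro i hi j hj h
      have := hstem.inj (2 * s - i) (by omega) (2 * s - j) (by omega) h
      omega)
  have hnb : n b = b := by
    have : n (p (2 * s - 2 * s)) = p (2 * s - 2 * s) := n4
    rw [Nat.sub_self, hstem.start] at this
    exact this
  have hout : ∀ i, 1 ≤ i → i ≤ 2 * s → p i ∉ verts E := by
    intro i hi hi' hK
    have e1 := hstem.meets i hi' hK
    rw [← hstem.start] at e1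
    have := hstem.inj _ hi' _ (by omega) e1
    omega
  refine ⟨n, b, p, s, p (2 * s), ⟨n1, fun m' hm' => by rw [n2]; exact hm.min m' hm'⟩,
    ⟨hbase.1, hnb, ?_⟩, ⟨hstem.start, rfl, ?_, ?_, hstem.inj, hout⟩, ?_⟩
  · intro v hv hne
    rw [n5]
    · exact hcn0 v hv hne
    · intro i hi h
      apply hne
      rw [h]
      exact hstem.meets _ (by omega) (h ▸ hv)
  · intro j hj
    exact hstem.adj (2 * j) (by omega)
  · intro j hj
    have : n (p (2 * s - 2 * (s - 1 - j))) = p (2 * s - (2 * (s - 1 - j) + 1)) := n3 (s - 1 - j) (by omega)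
    rw [show 2 * s - 2 * (s - 1 - j) = 2 * j + 2 by omega,
      show 2 * s - (2 * (s - 1 - j) + 1) = 2 * j + 1 by omega] at this
    rw [← this, n1.inv]
  · rw [hF] at hxF
    rcases hxF with h | h
    · exact Or.inl h
    · exact Or.inr h

end

end Pool.Agent.N405.Flower
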