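import Mathlib
import Pool.Agent.N405.FlowerCyc

namespace Pool.Agent.N405.Flower

open SimpleGraph Finset

variable {V : Type*} [Fintype V] [DecidableEq V] {G : SimpleGraph V} {E : Set (Sym2 V)}

lemma not_fixed {n : V → V} (hE : IsOddCycle G E) (hn : Mn G n) {b w x a : V} {p : ℕ → V} {s : ℕ}
    (hcn : CN E n b) (hw : w ∈ verts E) (ha : Alt G n (verts E) w x p s) (hxa : G.Adj x a)
    (haK : a ∉ verts E) (hap : ∀ i ≤ 2 * s, p i ≠ a) : n a ≠ a := by
  intro h
  obtain ⟨n', m, hn', hcn', hoff, hm, m1, m2, m3⟩ := switch_alt hE hn hcn hw ha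
  refine no_aug hm m2 hxa ?_
  rw [m3 a (fun i hi h => hap i hi h.symm), hoff a haK, h]

lemma reach_fixed_aux {n m : V → V} (hE : IsOddCycle G E) (hn : Mn G n) {b : V}
    (hcn : CN E n b) (hm : Inv G m) (N : ℕ) :
    ∀ (x : V) (S : Finset V), Fintype.card V - S.card ≤ N → b ∈ S → (∀ v ∈ S, n v ∈ S) →
      (∀ v ∈ S, v ≠ x → m v ∈ S ∧ m v ≠ x) →
      (∃ w p s, w ∈ verts E ∧ Alt G n (verts E) w x p s ∧ ∀ i ≤ 2 * s, p i ∈ S) →
      ∃ u ∈ reach G E, m u = u := by
  induction N with
  | zero =>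
    intro x S hN hb hnS hmS ⟨w, p, s, hw, halt, hpS⟩
    by_cases hx : m x = x
    · refine ⟨x, ?_, hx⟩
      rw [← halt.ps]
      exact (mem_R hE hn hcn hw halt).2 _ le_rfl
    · exfalso
      have hle := S.card_le_univ
      have : S = univ := by
        rw [← Finset.card_eq_iff_eq_univ]; omega
      exact (hmS (m x) (by rw [this]; exact mem_univ _) hx).2 (hm.inv x)
  | succ N ih =>
    intro x S hN hb hnS hmS ⟨w, p, s, hw, halt, hpS⟩
    by_cases hx : m x = x
    · refine ⟨x, ?_, hx⟩
      rw [← halt.ps]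
      exact (mem_R hE hn hcn hw halt).2 _ le_rfl
    have hxS : x ∈ S := by rw [← halt.ps]; exact hpS _ le_rfl
    have haS : m x ∉ S := fun h => (hmS _ h hx).2 (hm.inv x)
    have hxa := hm.adj x hx
    have hab : m x ≠ b := fun h => haS (h ▸ hb)
    have hap : ∀ i ≤ 2 * s, p i ≠ m x := fun i hi h => haS (h ▸ hpS i hi)
    have hna : n (m x) ≠ m x := by
      by_cases haK : m x ∈ verts E
      · exact hcn.ne hE haK hab
      · exact not_fixed hE hn hcn hw halt hxa haK hap
    have hcS : n (m x) ∉ S := fun h => haS (by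
      have := hnS _ h
      rwa [hn.toInv.inv] at this)
    have hcard : S.card < (insert (m x) (insert (n (m x)) S)).card := by
      apply card_lt_card
      rw [Finset.ssubset_iff_of_subset]
      · exact ⟨m x, by simp, haS⟩
      · intro v hv; simp [hv]
    apply ih (n (m x)) (insert (m x) (insert (n (m x)) S))
    · have := (insert (m x) (insert (n (m x)) S)).card_le_univ
      omega
    · simp [hb]
    · intro v hv
      simp only [mem_insert] at hv ⊢
      rcases hv with rfl | rfl | hv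
      · exact Or.inr (Or.inl rfl)
      · rw [hn.toInv.inv]; exact Or.inl rfl
      · exact Or.inr (Or.inr (hnS v hv))
    · intro v hv hne
      simp only [mem_insert] at hv ⊢
      rcases hv with rfl | rfl | hv
      · rw [hm.inv]
        exact ⟨Or.inr (Or.inr hxS), fun h => hcS (h ▸ hxS)⟩
      · exact absurd rfl hne
      · by_cases hvx : v = x
        · subst hvx
          exact ⟨Or.inl rfl, hna.symm⟩
        · have := (hmS v hv hvx).1
          exact ⟨Or.inr (Or.inr this), fun h => hcS (h ▸ this)⟩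
    · by_cases haK : m x ∈ verts E
      · refine ⟨n (m x), _, 0, hcn.closed _ haK, alt_zero n (verts E) _, ?_⟩
        intro i hi; simp
      · have hcK : n (m x) ∉ verts E := by
          rwa [closed_iff hn.toInv.inv hcn.closed]
        obtain ⟨q, q1, q2, q3⟩ := alt_ext halt hxa hna haK hcK hap
          (fun i hi h => hcS (h ▸ hpS i hi))
        refine ⟨w, q, s + 1, hw, q1, ?_⟩
        intro i hi
        by_cases h1 : i ≤ 2 * s
        · rw [q2 i h1]; simp [hpS i h1]
        · by_cases h2 : i = 2 * s + 1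
          · rw [h2, q3]; simp
          · rw [show i = 2 * (s + 1) by omega, q1.ps]; simp

lemma reach_fixed {n m : V → V} (hE : IsOddCycle G E) (hn : Mn G n) {b : V}
    (hcn : CN E n b) (hm : Inv G m) : ∃ u ∈ reach G E, m u = u := by
  refine reach_fixed_aux hE hn hcn hm _ b {b} le_rfl (by simp) ?_ ?_
    ⟨b, _, 0, hcn.mem, alt_zero n (verts E) b, by simp⟩
  · intro v hv
    rw [mem_singleton] at hv
    rw [hv, hcn.fix]; simp
  · intro v hv hne
    rw [mem_singleton] at hv
    exact absurd hv hne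

lemma ndir_aux {n m : V → V} (hE : IsOddCycle G E) (hn : Mn G n) {b w a : V}
    (hcn : CN E n b) (hm : Inv G m) (hw : w ∈ verts E) {Q : Set V} (hQm : ∀ v ∈ Q, m v ∈ Q)
    (hQn : ∀ v ∈ Q, n v ∈ Q) (hQK : ∀ v ∈ Q, v ∉ verts E) (N : ℕ) :
    ∀ (x : V) (S : Finset V) (p : ℕ → V) (s : ℕ), Fintype.card V - S.card ≤ N → a ∈ S →
      (∀ v ∈ S, n v ∈ S) → (∀ v ∈ S, v ∈ Q) → x ∈ S →
      (∀ v ∈ S, v ≠ a → v ≠ x → m v ∈ S ∧ m v ≠ x) →
      Alt G n (verts E) w x p s → (∀ i ≤ 2 * s, p i ∈ S ∨ p i ∉ Q) →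
      (∀ v ∈ S, ∃ i ≤ 2 * s, v = p i) →
      ∃ T : Set V, T ⊆ reach G E ∧ T ⊆ Q ∧ a ∈ T ∧ (∀ v ∈ T, n v ∈ T) ∧
        ∀ v ∈ T, v ≠ a → m v ∈ T := by
  induction N with
  | zero =>
    intro x S p s hN haS hnS hSQ hxS hmS halt hpS hSp
    have hle := S.card_le_univ
    have hS : S = univ := by
      rw [← Finset.card_eq_iff_eq_univ]; omega
    refine ⟨(S : Set V), ?_, ?_, haS, fun v hv => hnS v hv, fun v _ _ => by
      rw [hS]; simp⟩
    · intro v hv
      obtain ⟨i, hi, rfl⟩ := hSp v hv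
      exact (mem_R hE hn hcn hw halt).2 i hi
    · intro v hv; exact hSQ v hv
  | succ N ih =>
    intro x S p s hN haS hnS hSQ hxS hmS halt hpS hSp
    by_cases hx : m x ∈ S
    · refine ⟨(S : Set V), ?_, ?_, haS, fun v hv => hnS v hv, ?_⟩
      · intro v hv
        obtain ⟨i, hi, rfl⟩ := hSp v hv
        exact (mem_R hE hn hcn hw halt).2 i hi
      · intro v hv; exact hSQ v hv
      · intro v hv hva
        by_cases hvx : v = x
        · rw [hvx]; exact hx
        · exact (hmS v hv hva hvx).1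
    · have hxx : m x ≠ x := fun h => hx (by rw [h]; exact hxS)
      have hxa := hm.adj x hxx
      have haQ : m x ∈ Q := hQm _ (hSQ x hxS)
      have haK := hQK _ haQ
      have hap : ∀ i ≤ 2 * s, p i ≠ m x := by
        intro i hi h
        rcases hpS i hi with h1 | h1
        · exact hx (h ▸ h1)
        · exact h1 (h ▸ haQ)
      have hna := not_fixed hE hn hcn hw halt hxa haK hap
      have hcS : n (m x) ∉ S := fun h => hx (by
        have := hnS _ h
        rwa [hn.toInv.inv] at this)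
      have hcQ : n (m x) ∈ Q := hQn _ haQ
      have hcK := hQK _ hcQ
      have hcp : ∀ i ≤ 2 * s, p i ≠ n (m x) := by
        intro i hi h
        rcases hpS i hi with h1 | h1
        · exact hcS (h ▸ h1)
        · exact h1 (h ▸ hcQ)
      have hcard : S.card < (insert (m x) (insert (n (m x)) S)).card := by
        apply card_lt_card
        rw [Finset.ssubset_iff_of_subset]
        · exact ⟨m x, by simp, hx⟩
        · intro v hv; simp [hv]
      obtain ⟨q, q1, q2, q3⟩ := alt_ext halt hxa hna haK hcK hap hcp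
      apply ih (n (m x)) (insert (m x) (insert (n (m x)) S)) q (s + 1)
      · have := (insert (m x) (insert (n (m x)) S)).card_le_univ
        omega
      · simp [haS]
      · intro v hv
        simp only [mem_insert] at hv ⊢
        rcases hv with rfl | rfl | hv
        · exact Or.inr (Or.inl rfl)
        · rw [hn.toInv.inv]; exact Or.inl rfl
        · exact Or.inr (Or.inr (hnS v hv))
      · intro v hv
        simp only [mem_insert] at hv
        rcases hv with rfl | rfl | hv
        · exact haQ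
        · exact hcQ
        · exact hSQ v hv
      · simp
      · intro v hv hva hne
        simp only [mem_insert] at hv ⊢
        rcases hv with rfl | rfl | hv
        · rw [hm.inv]
          exact ⟨Or.inr (Or.inr hxS), fun h => hcS (h ▸ hxS)⟩
        · exact absurd rfl hne
        · by_cases hvx : v = x
          · subst hvx
            exact ⟨Or.inl rfl, hna.symm⟩
          · have := (hmS v hv hva hvx).1
            exact ⟨Or.inr (Or.inr this), fun h => hcS (h ▸ this)⟩
      · exact q1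
      · intro i hi
        by_cases h1 : i ≤ 2 * s
        · rw [q2 i h1]
          rcases hpS i h1 with h | h
          · left; simp [h]
          · right; exact h
        · by_cases h2 : i = 2 * s + 1
          · rw [h2, q3]; left; simp
          · rw [show i = 2 * (s + 1) by omega, q1.ps]; left; simp
      · intro v hv
        simp only [mem_insert] at hv
        rcases hv with rfl | rfl | hv
        · exact ⟨2 * s + 1, by omega, q3.symm⟩
        · exact ⟨2 * (s + 1), by omega, q1.ps.symm⟩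
        · obtain ⟨i, hi, rfl⟩ := hSp v hv
          exact ⟨i, by omega, (q2 i hi).symm⟩

lemma ndir {n m : V → V} (hE : IsOddCycle G E) (hn : Mn G n) {b w a d : V}
    (hcn : CN E n b) (hm : Inv G m) (hw : w ∈ verts E) {Q : Set V} (hQm : ∀ v ∈ Q, m v ∈ Q)
    (hQn : ∀ v ∈ Q, n v ∈ Q) (hQK : ∀ v ∈ Q, v ∉ verts E) {p : ℕ → V} {s : ℕ}
    (halt : Alt G n (verts E) w d p s) (hpQ : ∀ i ≤ 2 * s, p i ∉ Q) (hda : G.Adj d a)
    (haQ : a ∈ Q) :
    ∃ T : Set V, T ⊆ reach G E ∧ T ⊆ Q ∧ a ∈ T ∧ (∀ v ∈ T, n v ∈ T) ∧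
      ∀ v ∈ T, v ≠ a → m v ∈ T := by
  have hap : ∀ i ≤ 2 * s, p i ≠ a := fun i hi h => hpQ i hi (h ▸ haQ)
  have hna := not_fixed hE hn hcn hw halt hda (hQK _ haQ) hap
  have hcQ := hQn a haQ
  obtain ⟨q, q1, q2, q3⟩ := alt_ext halt hda hna (hQK _ haQ) (hQK _ hcQ) hap
    (fun i hi h => hpQ i hi (h ▸ hcQ))
  refine ndir_aux hE hn hcn hm hw hQm hQn hQK _ (n a) {a, n a} q (s + 1) le_rfl (by simp)
    ?_ ?_ (by simp) ?_ q1 ?_ ?_
  · intro v hv
    simp only [mem_insert, mem_singleton] at hv ⊢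
    rcases hv with rfl | rfl
    · exact Or.inr rfl
    · rw [hn.toInv.inv]; exact Or.inl rfl
  · intro v hv
    simp only [mem_insert, mem_singleton] at hv
    rcases hv with rfl | rfl
    · exact haQ
    · exact hcQ
  · intro v hv h1 h2
    simp only [mem_insert, mem_singleton] at hv
    rcases hv with h | h
    · exact absurd h h1
    · exact absurd h h2
  · intro i hi
    by_cases h1 : i ≤ 2 * s
    · rw [q2 i h1]; right; exact hpQ i h1
    · by_cases h2 : i = 2 * s + 1
      · rw [h2, q3]; left; simp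
      · rw [show i = 2 * (s + 1) by omega, q1.ps]; left; simp
  · intro v hv
    simp only [mem_insert, mem_singleton] at hv
    rcases hv with rfl | rfl
    · exact ⟨2 * s + 1, by omega, q3.symm⟩
    · exact ⟨2 * (s + 1), by omega, q1.ps.symm⟩

/-- A maximum matching that respects the cycle maps its reach set to itself. -/
theorem reach_closed (hE : IsOddCycle G E) {m : V → V} (hm : Mn G m)
    (hmK : ∀ v ∈ verts E, m v ∈ verts E) {x : V} (hx : x ∈ reach G E) (hxK : x ∉ verts E) :
    m x ∈ reach G E := by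
  obtain ⟨n, b, p, s, x', hn, hcn, halt, hxp⟩ := of_mem_R hx
  obtain ⟨i₀, hi₀, hxi⟩ : ∃ i ≤ 2 * s, x = p i := hxp.resolve_left hxK
  -- `m'` agrees with `n` on the cycle
  have hm' : Mn G (sw (verts E) n m) := sw_mn hn hm hcn.closed hmK
  have hm'x : sw (verts E) n m x = m x := sw_not_mem hxK
  have hm'K : ∀ v ∈ verts E, sw (verts E) n m v ∈ verts E := by
    intro v hv; rw [sw_mem hv]; exact hcn.closed v hv
  generalize sw (verts E) n m = m' at hm' hm'x hm'K
  rw [← hm'x]
  let r : V → V → Prop := fun u v => v = m' u ∨ v = n u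
  have hrsymm : ∀ u v, r u v → r v u := by
    rintro u v (rfl | rfl)
    · left; exact (hm'.toInv.inv u).symm
    · right; exact (hn.toInv.inv u).symm
  let Q : Set V := {v | Relation.ReflTransGen r x v}
  have hxQ : x ∈ Q := Relation.ReflTransGen.refl
  have hQm : ∀ v ∈ Q, m' v ∈ Q := fun v hv => Relation.ReflTransGen.tail hv (Or.inl rfl)
  have hQn : ∀ v ∈ Q, n v ∈ Q := fun v hv => Relation.ReflTransGen.tail hv (Or.inr rfl)
  have hmin : ∀ T : Set V, (∀ v ∈ T, m' v ∈ T) → (∀ v ∈ T, n v ∈ T) → ∀ v ∈ Q, v ∈ T → x ∈ T := by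
    intro T hT1 hT2 v hv
    induction hv with
    | refl => exact id
    | tail h1 h2 ih =>
      intro h
      apply ih
      rcases hrsymm _ _ h2 with h3 | h3
      · rw [h3]; exact hT1 _ h
      · rw [h3]; exact hT2 _ h
  have hQK : ∀ v ∈ Q, v ∉ verts E := fun v hv hvK => hxK (hmin _ hm'K hcn.closed v hv hvK)
  -- first vertex of the path in `Q`
  classical
  have hex : ∃ i, i ≤ 2 * s ∧ p i ∈ Q := ⟨i₀, hi₀, hxi ▸ hxQ⟩
  obtain ⟨hj1, hj2⟩ := Nat.find_spec hex
  have hj3 : ∀ i < Nat.find hex, p i ∉ Q := by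
    intro i hi hiQ
    exact Nat.find_min hex hi ⟨by omega, hiQ⟩
  generalize Nat.find hex = j at hj1 hj2 hj3
  obtain ⟨k, rfl⟩ : ∃ k, j = 2 * k + 1 := by
    rcases Nat.even_or_odd' j with ⟨k, rfl | rfl⟩
    · exfalso
      rcases Nat.eq_zero_or_pos k with rfl | hk
      · rw [mul_zero, halt.p0] at hj2
        exact hQK _ hj2 hcn.mem
      · obtain ⟨l, rfl⟩ : ∃ l, k = l + 1 := ⟨k - 1, by omega⟩
        have e := halt.mt l (by omega)
        apply hj3 (2 * l + 1) (by omega)
        have : p (2 * l + 1) = n (p (2 * (l + 1))) := by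
          rw [show 2 * (l + 1) = 2 * l + 2 by ring, ← e, hn.toInv.inv]
        rw [this]; exact hQn _ hj2
    · exact ⟨k, rfl⟩
  have hks : k < s := by omega
  have hpQ : ∀ i ≤ 2 * k, p i ∉ Q := fun i hi => hj3 i (by omega)
  have halt1 : Alt G n (verts E) b (p (2 * k)) p k :=
    ⟨halt.p0, rfl, fun j hj => halt.adj j (by omega), fun j hj => halt.mt j (by omega),
      fun i hi j hj => halt.inj i (by omega) j (by omega),
      fun i hi hi' => halt.out i hi (by omega)⟩
  have hda := halt.adj k hks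
  obtain ⟨S, hS1, hS2, hS3, hS4, hS5⟩ := ndir hE hn hcn hm'.toInv hcn.mem hQm hQn hQK halt1 hpQ
    hda hj2
  -- the other direction
  have hn2 : Mn G (sw Q m' n) := sw_mn hm' hn hQm hQn
  have hm2 : Mn G (sw Q n m') := sw_mn hn hm' hQn hQm
  have hcn2 : CN E (sw Q m' n) b := by
    have hKQ : ∀ v ∈ verts E, v ∉ Q := fun v hv hvQ => hQK v hvQ hv
    refine ⟨hcn.mem, by rw [sw_not_mem (hKQ _ hcn.mem), hcn.fix], ?_⟩
    intro v hv hne
    rw [sw_not_mem (hKQ v hv)]
    exact hcn.edge v hv hne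
  have halt2 : Alt G (sw Q m' n) (verts E) b (p (2 * k)) p k := by
    refine ⟨halt1.p0, halt1.ps, halt1.adj, ?_, halt1.inj, halt1.out⟩
    intro j hj
    rw [sw_not_mem (hpQ _ (by omega))]
    exact halt1.mt j hj
  obtain ⟨S', hS1', hS2', hS3', hS4', hS5'⟩ := ndir hE hn2 hcn2 hm2.toInv hcn2.mem
    (fun v hv => by rw [sw_mem hv]; exact hQn v hv) (fun v hv => by rw [sw_mem hv]; exact hQm v hv)
    hQK halt2 hpQ hda hj2
  have hS4'' : ∀ v ∈ S', m' v ∈ S' := by
    intro v hv
    have := hS4' v hv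
    rwa [sw_mem (hS2' hv)] at this
  have hS5'' : ∀ v ∈ S', v ≠ p (2 * k + 1) → n v ∈ S' := by
    intro v hv hne
    have := hS5' v hv hne
    rwa [sw_mem (hS2' hv)] at this
  have hTm : ∀ v ∈ S ∪ S', m' v ∈ S ∪ S' := by
    rintro v (hv | hv)
    · by_cases hva : v = p (2 * k + 1)
      · right; rw [hva]; exact hS4'' _ hS3'
      · left; exact hS5 v hv hva
    · right; exact hS4'' v hv
  have hTn : ∀ v ∈ S ∪ S', n v ∈ S ∪ S' := by
    rintro v (hv | hv)
    · left; exact hS4 v hv
    · by_cases hva : v = p (2 * k + 1)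
      · left; rw [hva]; exact hS4 _ hS3
      · right; exact hS5'' v hv hva
  have hxT := hmin _ hTm hTn _ hj2 (Or.inl hS3)
  rcases hTm _ hxT with h | h
  · exact hS1 h
  · exact hS1' h

end Pool.Agent.N405.Flower
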