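import Mathlib
import Pool.Agent.N405.FlowerWalk

namespace Pool.Agent.N405.Flower

open SimpleGraph Finset

variable {V : Type*} [Fintype V] [DecidableEq V] {G : SimpleGraph V}

omit [DecidableEq V] in
lemma exists_root (σ : Equiv.Perm V) (x₀ : V) :
    ∃ r : V → V, r x₀ = x₀ ∧ (∀ v, ∃ j : ℕ, σ^[j] (r v) = v) ∧ ∀ v, r (σ v) = r v := by
  classical
  let st := Equiv.Perm.SameCycle.setoid σ
  let r : V → V := fun v => if σ.SameCycle x₀ v then x₀ else (Quotient.mk st v).out
  refine ⟨r, ?_, ?_, ?_⟩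
  · simp only [r, if_pos (Equiv.Perm.SameCycle.refl σ x₀)]
  · intro v
    have h : σ.SameCycle (r v) v := by
      by_cases h : σ.SameCycle x₀ v
      · simp only [r, if_pos h]; exact h
      · simp only [r, if_neg h]
        exact Quotient.exact (Quotient.out_eq (Quotient.mk st v))
    obtain ⟨i, _, hi⟩ := h.exists_pow_eq'
    exact ⟨i, by rw [Equiv.Perm.iterate_eq_pow]; exact hi⟩
  · intro v
    have h2 : Quotient.mk st (σ v) = Quotient.mk st v := by
      apply Quotient.sound
      change σ.SameCycle (σ v) v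
      rw [Equiv.Perm.sameCycle_apply_left]
    simp only [r, Equiv.Perm.sameCycle_apply_right, h2]

omit [Fintype V] [DecidableEq V] in
lemma odd_orbit (σ : Equiv.Perm V) (hσ : ∀ v, G.Adj v (σ v)) (x : V)
    (hodd : Function.minimalPeriod σ x % 2 = 1) :
    IsOddCycle G {e | ∃ j : ℕ, e = s(σ^[j] x, σ^[j + 1] x)} := by
  obtain ⟨t, ht⟩ : ∃ t, Function.minimalPeriod σ x = 2 * t + 1 :=
    ⟨Function.minimalPeriod σ x / 2, by omega⟩
  have ht1 : 1 ≤ t := by
    by_contra h
    have h0 : t = 0 := by omega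
    subst h0
    rw [mul_zero, zero_add, Function.minimalPeriod_eq_one_iff_isFixedPt] at ht
    exact (hσ x).ne ht.symm
  have : Fact (1 < 2 * t + 1) := ⟨by omega⟩
  have hmod : ∀ i : ℕ, σ^[i % (2 * t + 1)] x = σ^[i] x := by
    intro i; rw [← ht]; exact Function.iterate_mod_minimalPeriod_eq
  have hsucc : ∀ i : ZMod (2 * t + 1), σ^[(i + 1).val] x = σ^[i.val + 1] x := by
    intro i
    rw [ZMod.val_add, ZMod.val_one, hmod]
  refine ⟨t, ht1, fun i => σ^[i.val] x, ?_, ?_, ?_⟩
  · intro i j hij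
    have hi : i.val < Function.minimalPeriod σ x := by rw [ht]; exact ZMod.val_lt i
    have hj : j.val < Function.minimalPeriod σ x := by rw [ht]; exact ZMod.val_lt j
    exact ZMod.val_injective _ ((Function.iterate_eq_iterate_iff_of_lt_minimalPeriod hi hj).1 hij)
  · intro i
    change G.Adj (σ^[i.val] x) (σ^[(i + 1).val] x)
    rw [hsucc, Function.iterate_succ_apply']
    exact hσ _
  · ext e
    constructor
    · rintro ⟨j, rfl⟩
      refine ⟨(j : ZMod (2 * t + 1)), ?_⟩
      change s(σ^[(j : ZMod (2 * t + 1)).val] x, σ^[((j : ZMod (2 * t + 1)) + 1).val] x) = _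
      rw [hsucc, Function.iterate_succ_apply', Function.iterate_succ_apply', ZMod.val_natCast, hmod]
    · rintro ⟨i, rfl⟩
      refine ⟨i.val, ?_⟩
      change s(σ^[i.val] x, σ^[(i + 1).val] x) = _
      rw [hsucc]

omit [Fintype V] [DecidableEq V] in
lemma orbit_verts (σ : Equiv.Perm V) (x u : V) :
    u ∈ verts {e | ∃ j : ℕ, e = s(σ^[j] x, σ^[j + 1] x)} ↔ ∃ j : ℕ, u = σ^[j] x := by
  constructor
  · rintro ⟨e, ⟨j, rfl⟩, hu⟩
    rcases Sym2.mem_iff.1 hu with rfl | rfl
    · exact ⟨_, rfl⟩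
    · exact ⟨_, rfl⟩
  · rintro ⟨j, rfl⟩
    exact ⟨_, ⟨j, rfl⟩, by simp⟩

omit [DecidableEq V] in
/-- The matching extracted from a Sachs permutation. -/
lemma sachs (σ : Equiv.Perm V) (hσ : ∀ v, G.Adj v (σ v)) (x₀ : V) :
    ∃ (m : V → V) (C : V → Set (Sym2 V)), Inv G m ∧
      (∀ v, m v = v ∨ m v = σ v ∨ m v = σ.symm v) ∧
      (∀ v, m v = v → IsOddCycle G (C v)) ∧
      (∀ v, v ∈ verts (C v) ∧ (∀ u ∈ verts (C v), σ u ∈ verts (C v)) ∧
        ∀ u ∈ verts (C v), σ.symm u ∈ verts (C v)) ∧
      (∀ u v, m u = u → m v = v → C u = C v → u = v) ∧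
      (m x₀ = σ x₀ ∨ IsOddCycle G (C x₀)) := by
  classical
  obtain ⟨r, hr0, hr1, hr2⟩ := exists_root σ x₀
  have hper : ∀ x : V, 0 < Function.minimalPeriod σ x := fun x =>
    Function.minimalPeriod_pos_of_mem_periodicPts (σ.injective.mem_periodicPts x)
  have hrit : ∀ (j : ℕ) v, r (σ^[j] v) = r v := by
    intro j v
    induction j with
    | zero => rfl
    | succ j ih => rw [Function.iterate_succ_apply', hr2, ih]
  have hrr : ∀ v, r (r v) = r v := by
    intro v
    obtain ⟨j, hj⟩ := hr1 v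
    rw [← hrit j (r v), hj]
  -- index
  have hidx : ∀ v, ∃ j, j < Function.minimalPeriod σ (r v) ∧ σ^[j] (r v) = v := by
    intro v
    obtain ⟨j, hj⟩ := hr1 v
    refine ⟨j % Function.minimalPeriod σ (r v), Nat.mod_lt _ (hper _), ?_⟩
    rw [Function.iterate_mod_minimalPeriod_eq, hj]
  choose idx hi1 hi2 using hidx
  have huniq : ∀ v j, j < Function.minimalPeriod σ (r v) → σ^[j] (r v) = v → j = idx v := by
    intro v j hj h
    apply (Function.iterate_eq_iterate_iff_of_lt_minimalPeriod hj (hi1 v)).1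
    rw [h, hi2]
  have hsucc : ∀ v, idx v + 1 < Function.minimalPeriod σ (r v) → idx (σ v) = idx v + 1 := by
    intro v hv
    refine (huniq (σ v) _ ?_ ?_).symm
    · rw [hr2]; exact hv
    · rw [hr2, Function.iterate_succ_apply', hi2]
  have hpred : ∀ v, 0 < idx v → idx (σ.symm v) = idx v - 1 := by
    intro v hv
    have e1 : r (σ.symm v) = r v := by
      have := hr2 (σ.symm v)
      rw [Equiv.apply_symm_apply] at this
      exact this.symm
    have h1 := hi1 v
    refine (huniq (σ.symm v) _ ?_ ?_).symm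
    · rw [e1]; omega
    · rw [e1, Equiv.eq_symm_apply, ← Function.iterate_succ_apply' σ, Nat.succ_eq_add_one,
        Nat.sub_add_cancel hv, hi2]
  have hrs : ∀ v, r (σ.symm v) = r v := by
    intro v
    have := hr2 (σ.symm v)
    rw [Equiv.apply_symm_apply] at this
    exact this.symm
  let m : V → V := fun v => if idx v % 2 = 1 then σ.symm v else
    if idx v + 1 < Function.minimalPeriod σ (r v) then σ v else v
  have ma : ∀ v, idx v % 2 = 1 → m v = σ.symm v := fun v h => by simp only [m, if_pos h]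
  have mb : ∀ v, idx v % 2 = 0 → idx v + 1 < Function.minimalPeriod σ (r v) → m v = σ v := by
    intro v h h'
    simp only [m]
    rw [if_neg (by omega), if_pos h']
  have mc : ∀ v, idx v % 2 = 0 → ¬ idx v + 1 < Function.minimalPeriod σ (r v) → m v = v := by
    intro v h h'
    simp only [m]
    rw [if_neg (by omega), if_neg h']
  have mcases : ∀ v, idx v % 2 = 1 ∨ (idx v % 2 = 0 ∧ idx v + 1 < Function.minimalPeriod σ (r v)) ∨
      (idx v % 2 = 0 ∧ ¬ idx v + 1 < Function.minimalPeriod σ (r v)) := by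
    intro v; omega
  have hne : ∀ v, σ v ≠ v := fun v => (hσ v).ne'
  have hne' : ∀ v, σ.symm v ≠ v := by
    intro v h
    apply hne v
    rw [Equiv.symm_apply_eq] at h
    exact h.symm
  have hfix : ∀ v, m v = v → idx v % 2 = 0 ∧ idx v + 1 = Function.minimalPeriod σ (r v) := by
    intro v hv
    rcases mcases v with h | ⟨h, h'⟩ | ⟨h, h'⟩
    · rw [ma v h] at hv; exact absurd hv (hne' v)
    · rw [mb v h h'] at hv; exact absurd hv (hne v)
    · have := hi1 v
      exact ⟨h, by omega⟩
  refine ⟨m, fun v => {e | ∃ j : ℕ, e = s(σ^[j] (r v), σ^[j + 1] (r v))}, ⟨?_, ?_⟩, ?_, ?_, ?_, ?_, ?_⟩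
  · intro v
    rcases mcases v with h | ⟨h, h'⟩ | ⟨h, h'⟩
    · rw [ma v h]
      have e := hpred v (by omega)
      have := hi1 v
      rw [mb _ (by omega) (by rw [hrs]; omega), Equiv.apply_symm_apply]
    · rw [mb v h h']
      have e := hsucc v h'
      rw [ma _ (by omega), Equiv.symm_apply_apply]
    · rw [mc v h h', mc v h h']
  · intro v hv
    rcases mcases v with h | ⟨h, h'⟩ | ⟨h, h'⟩
    · rw [ma v h]
      have := hσ (σ.symm v)
      rw [Equiv.apply_symm_apply] at this
      exact this.symm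
    · rw [mb v h h']; exact hσ v
    · exact absurd (mc v h h') hv
  · intro v
    rcases mcases v with h | ⟨h, h'⟩ | ⟨h, h'⟩
    · right; right; exact ma v h
    · right; left; exact mb v h h'
    · left; exact mc v h h'
  · intro v hv
    obtain ⟨h1, h2⟩ := hfix v hv
    exact odd_orbit σ hσ (r v) (by omega)
  · intro v
    refine ⟨?_, ?_, ?_⟩
    · rw [orbit_verts]; exact ⟨idx v, (hi2 v).symm⟩
    · intro u hu
      rw [orbit_verts] at hu ⊢
      obtain ⟨j, rfl⟩ := hu
      exact ⟨j + 1, by rw [Function.iterate_succ_apply']⟩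
    · intro u hu
      rw [orbit_verts] at hu ⊢
      obtain ⟨j, rfl⟩ := hu
      rcases Nat.eq_zero_or_pos j with rfl | hj
      · refine ⟨Function.minimalPeriod σ (r v) - 1, ?_⟩
        rw [Equiv.symm_apply_eq, ← Function.iterate_succ_apply' σ, Nat.succ_eq_add_one,
          Nat.sub_add_cancel (hper _), Function.iterate_minimalPeriod]
        rfl
      · refine ⟨j - 1, ?_⟩
        rw [Equiv.symm_apply_eq, ← Function.iterate_succ_apply' σ, Nat.succ_eq_add_one,
          Nat.sub_add_cancel hj]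
  · intro u v hu hv huv
    have h1 : v ∈ verts {e | ∃ j : ℕ, e = s(σ^[j] (r v), σ^[j + 1] (r v))} := by
      rw [orbit_verts]; exact ⟨idx v, (hi2 v).symm⟩
    simp only at huv
    rw [← huv, orbit_verts] at h1
    obtain ⟨j, hj⟩ := h1
    have h2 : r v = r u := by rw [hj, hrit, hrr]
    have e1 := (hfix u hu).2
    have e2 := (hfix v hv).2
    rw [h2] at e2
    have e3 : idx u = idx v := by omega
    rw [← hi2 u, ← hi2 v, h2, e3]
  · have h0 : idx x₀ = 0 := by
      refine (huniq x₀ 0 (hper _) ?_).symm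
      rw [hr0]; rfl
    by_cases hodd : Function.minimalPeriod σ (r x₀) % 2 = 1
    · right; exact odd_orbit σ hσ (r x₀) hodd
    · left
      have := hper (r x₀)
      exact mb x₀ (by omega) (by omega)

/-- existence of a near perfect base matching on each cycle -/
lemma exists_base (hG : RDisjoint G) {E : Set (Sym2 V)} (hE : IsOddCycle G E) :
    ∃ n b, Mn G n ∧ CN E n b := by
  obtain ⟨x, hx⟩ := hG.2.1 E hE
  obtain ⟨n, b, p, s, x', hn, hcn, _, _⟩ := of_mem_R hx
  exact ⟨n, b, hn, hcn⟩

open Classical in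
lemma card_le_fxc (hG : RDisjoint G) {m : V → V} (hm : Inv G m) :
    Fintype.card {E : Set (Sym2 V) // IsOddCycle G E} ≤ fxc m := by
  have h : ∀ E : {E : Set (Sym2 V) // IsOddCycle G E}, ∃ u, u ∈ reach G E.1 ∧ m u = u := by
    rintro ⟨E, hE⟩
    obtain ⟨n, b, hn, hcn⟩ := exists_base hG hE
    exact reach_fixed hE hn hcn hm
  choose f hf1 hf2 using h
  have hinj : Function.Injective f := by
    intro E E' hEE
    by_contra hne
    have hd := hG.2.2 E.1 E'.1 E.2 E'.2 (fun h => hne (Subtype.ext h))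
    exact Set.disjoint_left.1 hd (hf1 E) (hEE ▸ hf1 E')
  rw [← Finset.card_univ, fxc]
  refine Finset.card_le_card_of_injOn f ?_ hinj.injOn
  intro E _
  simpa using hf2 E

/-- Every Sachs permutation preserves every reach set. -/
theorem sigma_closed (hG : RDisjoint G) (σ : Equiv.Perm V) (hσ : ∀ v, G.Adj v (σ v))
    {E : Set (Sym2 V)} (hE : IsOddCycle G E) {x : V} (hx : x ∈ reach G E) :
    σ x ∈ reach G E := by
  classical
  obtain ⟨m, C, hm, hm1, hC1, hC2, hC3, hx0⟩ := sachs σ hσ x
  -- injection from the fixed points of `m` to the odd cycles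
  let f : {v // m v = v} → {E : Set (Sym2 V) // IsOddCycle G E} :=
    fun v => ⟨C v.1, hC1 v.1 v.2⟩
  have hfinj : Function.Injective f := by
    intro u v huv
    apply Subtype.ext
    exact hC3 u.1 v.1 u.2 v.2 (congrArg Subtype.val huv)
  have hle : fxc m ≤ Fintype.card {E : Set (Sym2 V) // IsOddCycle G E} := by
    have := Fintype.card_le_of_injective f hfinj
    rw [Fintype.card_subtype] at this
    exact this
  have hmn : Mn G m := ⟨hm, fun m' hm' => hle.trans (card_le_fxc hG hm')⟩
  have hcard : Fintype.card {v // m v = v} = Fintype.card {E : Set (Sym2 V) // IsOddCycle G E} := by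
    have h1 := card_le_fxc hG hm
    rw [Fintype.card_subtype]
    exact le_antisymm hle h1
  have hsurj := ((Fintype.bijective_iff_injective_and_card f).2 ⟨hfinj, hcard⟩).2
  have hclosed : ∀ E' : Set (Sym2 V), IsOddCycle G E' →
      (∀ u ∈ verts E', σ u ∈ verts E') ∧ ∀ u ∈ verts E', m u ∈ verts E' := by
    intro E' hE'
    obtain ⟨v, hv⟩ := hsurj ⟨E', hE'⟩
    have hv' : C v.1 = E' := congrArg Subtype.val hv
    have h2 := (hC2 v.1).2
    rw [hv'] at h2
    refine ⟨h2.1, ?_⟩
    intro u hu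
    rcases hm1 u with h | h | h
    · rw [h]; exact hu
    · rw [h]; exact h2.1 u hu
    · rw [h]; exact h2.2 u hu
  have hsub : ∀ E' : Set (Sym2 V), IsOddCycle G E' → verts E' ⊆ reach G E' := by
    intro E' hE'
    obtain ⟨n, b, hn, hcn⟩ := exists_base hG hE'
    exact (mem_R hE' hn hcn hcn.mem (alt_zero n (verts E') b)).1
  by_cases hxK : x ∈ verts E
  · exact hsub E hE ((hclosed E hE).1 x hxK)
  · rcases hx0 with h | h
    · rw [← h]
      exact reach_closed hE hmn (hclosed E hE).2 hx hxK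
    · exfalso
      have h1 : x ∈ verts (C x) := (hC2 x).1
      have hne : C x ≠ E := by
        intro h'; rw [h'] at h1; exact hxK h1
      exact Set.disjoint_left.1 (hG.2.2 _ _ h hE hne) (hsub _ h h1) hx

end Pool.Agent.N405.Flower
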